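import Pool.Agent.R200.RsMain

/-!
# MP_771d0b_an: the automorphism group of the random substitution subshift is not residually
finite
-/

open Pool.Agent.R200.Rs in
/-- `Aut(X_ϑ)` is not residually finite; a nontrivial automorphism lies in every finite-index
subgroup. -/
theorem Pool.Agent.Results.MP_771d0b_an.NotResiduallyFinite.result :
    ¬ ResFin AutX ∧ ∃ f : AutX, f ≠ 1 ∧ ∀ H : Subgroup AutX, H.FiniteIndex → f ∈ H := by
  obtain ⟨g, hg, hall⟩ := main
  refine ⟨?_, g, hg, ?_⟩
  · intro h
    obtain ⟨F, _, _, φ, hφ⟩ := h g hg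
    exact hφ (hall F φ)
  · intro H hH
    have h1 := hall (AutX ⧸ H.normalCore) (QuotientGroup.mk' H.normalCore)
    rw [QuotientGroup.mk'_apply, QuotientGroup.eq_one_iff] at h1
    exact H.normalCore_le h1
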